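import Pool.Agent.Y320.AI.Push
import Pool.Agent.Results.MP_11aa79_an.NotFactor

/-!
# Factorization in augmentation ideals: all groups with a nonabelian free quotient

The starting result `NotFactor` shows that the augmentation ideal `I₀(F₂)` of `ℓ¹(F₂)` does not
factor.  Here is a theorem for all groups:

(1) if `φ : G → Q` is a surjective homomorphism of groups and `I₀(G)` factors, then `I₀(Q)`
factors;

(2) if a group `G` has a nonabelian free quotient, then `I₀(G)` does not factor.  This covers all
nonabelian free groups, of any finite or infinite rank (for `G = F₂` it is the question), and for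
instance all surface groups of genus at least two, all nonabelian right-angled Artin groups, all
nonabelian limit groups, the pure braid groups on at least three strands, and all products
`G × K` and extensions `1 → N → G → F → 1` with `F` free and nonabelian.

(3) More precisely, let `i ≠ j` be free generators of `F`, let `A + B = 1` with `|A| = |B| = ρ`,
`1 / 2 < ρ < 1 / √2`, let `φ : G → F` be a homomorphism (surjective or not).  No element `a` of
`ℓ¹(G)` whose image in `ℓ¹(F)` is `1 - A i - B j` is a product of two elements of `I₀(G)`.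
-/

set_option autoImplicit false

open Pool.Agent.Y320.AI

namespace Pool.Agent.Results.MP_11aa79_an.FreeQuotients

open Pool.Agent.Results.MP_11aa79_an.NotFactor in
/-- No element of `ℓ¹(G)` which is mapped to `1 - A i - B j` is a product in the ideal. -/
theorem explicit {α G : Type} [DecidableEq α] [Group G] (φ : G →* FreeGroup α) {i j : α}
    (hij : i ≠ j) {A B : ℂ} (hAB : A + B = 1) {ρ : ℝ} (hA : ‖A‖ = ρ) (hB : ‖B‖ = ρ)
    (h1 : 1 < 2 * ρ) (h2 : 2 * ρ ^ 2 < 1) (a : G → ℂ)
    (ha : push φ a = fun g => (if g = 1 then (1 : ℂ) else 0) -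
      A * (if g = FreeGroup.of i then 1 else 0) - B * (if g = FreeGroup.of j then 1 else 0))
    (b c : G → ℂ) (hb : InI0 b) (hc : InI0 c) : a ≠ convProd b c := by
  intro h
  have hb' := push_mem φ hb
  have hc' := push_mem φ hc
  refine Last.no_factor (p := push φ b) (q := push φ c) hij hAB hA hB h1 h2 hb'.1 hc'.1
    hb'.2 hc'.2 (fun g => ?_)
  have h3 : convProd (push φ b) (push φ c) = push φ a := by
    rw [push_conv φ hb.1 hc.1, ← h]
  have h4 := congrFun h3 g
  rw [ha] at h4
  exact h4

/-- The augmentation ideal of a nonabelian free group does not factor. -/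
theorem free_not_factors {α : Type} {i j : α} (hij : i ≠ j) : ¬ IdealFactors (FreeGroup α) := by
  classical
  intro H
  set A : ℂ := (2 + Complex.I) / 4 with hA
  set B : ℂ := (2 - Complex.I) / 4 with hB
  have hAB : A + B = 1 := by rw [hA, hB]; ring
  have hnA : ‖A‖ = Real.sqrt 5 / 4 := by
    rw [hA, norm_div]
    have h1 : ‖(2 + Complex.I : ℂ)‖ = Real.sqrt 5 := by
      rw [Complex.norm_def]
      congr 1
      simp [Complex.normSq_apply]; norm_num
    rw [h1]; norm_num
  have hnB : ‖B‖ = Real.sqrt 5 / 4 := by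
    rw [hB, norm_div]
    have h1 : ‖(2 - Complex.I : ℂ)‖ = Real.sqrt 5 := by
      rw [Complex.norm_def]
      congr 1
      simp [Complex.normSq_apply]; norm_num
    rw [h1]; norm_num
  have h5 : Real.sqrt 5 ^ 2 = 5 := Real.sq_sqrt (by norm_num)
  have h50 : 0 ≤ Real.sqrt 5 := Real.sqrt_nonneg 5
  have h1 : 1 < 2 * (Real.sqrt 5 / 4) := by nlinarith
  have h2 : 2 * (Real.sqrt 5 / 4) ^ 2 < 1 := by nlinarith
  set z : FreeGroup α → ℂ := fun g => (if g = 1 then (1 : ℂ) else 0) -
      A * (if g = FreeGroup.of i then 1 else 0) - B * (if g = FreeGroup.of j then 1 else 0) with hz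
  have hd : ∀ c : FreeGroup α,
      HasSum (fun g : FreeGroup α => if g = c then (1 : ℂ) else 0) 1 :=
    fun c => hasSum_ite_eq c 1
  have hsum : HasSum z (1 - A * 1 - B * 1) :=
    ((hd 1).sub ((hd (FreeGroup.of i)).mul_left A)).sub ((hd (FreeGroup.of j)).mul_left B)
  obtain ⟨b, c, hb, hc, hbc⟩ := H z ⟨hsum.summable.norm, by
    rw [hsum.tsum_eq]; linear_combination -hAB⟩
  refine explicit (MonoidHom.id (FreeGroup α)) hij hAB hnA hnB h1 h2 z ?_ b c hb hc hbc
  funext y
  unfold push
  rw [tsum_eq_single y]
  · simp [hz]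
  · intro g hg
    rw [if_neg]
    exact hg

theorem result :
    -- (1) factorisation passes to quotients
    (∀ (G Q : Type) [Group G] [Group Q] (φ : G →* Q), Function.Surjective φ →
      IdealFactors G → IdealFactors Q) ∧
    -- (2) groups with a nonabelian free quotient
    (∀ (G α : Type) [Group G] [Nontrivial α] (φ : G →* FreeGroup α), Function.Surjective φ →
      ¬ IdealFactors G) ∧
    -- the groups `F₂` and `F_n`, `n ≥ 2`
    (∀ n : ℕ, 2 ≤ n → ¬ IdealFactors (FreeGroup (Fin n))) ∧
    -- (3) explicit elements that are not products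
    (∀ (G α : Type) [Group G] [DecidableEq α] (φ : G →* FreeGroup α) (i j : α), i ≠ j →
      ∀ (A B : ℂ) (ρ : ℝ), A + B = 1 → ‖A‖ = ρ → ‖B‖ = ρ → 1 < 2 * ρ → 2 * ρ ^ 2 < 1 →
      ∀ a : G → ℂ, (push φ a = fun g => (if g = 1 then (1 : ℂ) else 0) -
        A * (if g = FreeGroup.of i then 1 else 0) - B * (if g = FreeGroup.of j then 1 else 0)) →
      ∀ b c : G → ℂ, InI0 b → InI0 c → a ≠ convProd b c) := by
  refine ⟨fun G Q _ _ φ hφ hG => factors_quotient φ hφ hG, fun G α _ _ φ hφ hG => ?_,
    fun n hn => ?_, fun G α _ _ φ i j hij A B ρ hAB hA hB h1 h2 a ha b c hb hc =>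
      explicit φ hij hAB hA hB h1 h2 a ha b c hb hc⟩
  · obtain ⟨i, j, hij⟩ := exists_pair_ne α
    exact free_not_factors hij (factors_quotient φ hφ hG)
  · have hij : (⟨0, by omega⟩ : Fin n) ≠ ⟨1, by omega⟩ := by
      intro h
      simp at h
    exact free_not_factors hij

end Pool.Agent.Results.MP_11aa79_an.FreeQuotients
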